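import Pool.Agent.J4H50.YL.Cls
import Pool.Agent.J4H50.YK.Main

set_option autoImplicit false
set_option linter.unusedSectionVars false
set_option linter.unusedVariables false

/-! # Project YL: the assembly -/

namespace Pool.Agent.J4H50.YL

open MvPolynomial
open Pool.Agent.W428.MOT
open Pool.Agent.TH192.MT (ar zetaO JetS exists_meas)
open Pool.Agent.J4H50.YJ
open Pool.Agent.J4H50.YK
open Pool.Agent.J4H50.YP (deh hc_empty rest_ord)
open Pool.Agent.J4H50.YO (RedZeta NV NonExact Sing cone_sing re_div)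
open Pool.Agent.J4H50.TF (FEv_of_formal formal_root IsCo OrdF)
open Pool.Agent.W574.MO (mf DenRing Kb geo qq geo_mul geo11_mem)
open Pool.Agent.J4H50.YM (KN Dec Dec.mono den_mono swZM)
open Pool.Agent.Y229.PS (IsFormalBFunction formal_of_local)
open Pool.Agent.H628R4.TP (IsLocalBFunction)

theorem kn_deh' {V : Type} [Fintype V] [DecidableEq V] (G : MvPolynomial V ℂ) (d : ℕ)
    (hd : 2 ≤ d) (hG1 : ∀ j < d, homogeneousComponent j G = 0) (P : V → ℂ) (i : V)
    (hn : ∀ j : ℕ, 1 ≤ j → j * (d + 1) < Fintype.card V →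
      ¬ NV (deh P i (homogeneousComponent d G) : MvPowerSeries {j : V // j ≠ i} ℂ)
        (-((Fintype.card V : ℂ) - j * (d + 1)) / d))
    (hPi : P i ≠ 0) (hPs : ∀ l, eval P (pderiv l (homogeneousComponent d G)) = 0)
    (h1 : eval P (homogeneousComponent (d + 1) G) ≠ 0) (a m : ℕ) (ha : 1 ≤ a) (hm : 1 ≤ m)
    (hK : NV (deh P i (homogeneousComponent d G) : MvPowerSeries {j : V // j ≠ i} ℂ)
      (-(m : ℂ) / a)) :
    NV (G : MvPowerSeries V ℂ)
      (-((m + Fintype.card V * a : ℕ) : ℂ) / (((d + 1) * a : ℕ) : ℂ)) := by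
  have hac : (a : ℂ) ≠ 0 := Nat.cast_ne_zero.2 (by omega)
  have hdc : (d : ℂ) ≠ 0 := Nat.cast_ne_zero.2 (by omega)
  have hd1 : ((d : ℂ) + 1) ≠ 0 := by
    have : ((d + 1 : ℕ) : ℂ) ≠ 0 := Nat.cast_ne_zero.2 (by omega)
    rwa [Nat.cast_add, Nat.cast_one] at this
  refine Pool.Agent.J4H94.YP.t_G G d hd hG1 P i hPi hPs h1 _ _ ?_ ?_ ?_ hK
  · push_cast
    field_simp
    ring
  · intro j hj
    have h2 : (-((m + Fintype.card V * a : ℕ) : ℂ) / (((d + 1) * a : ℕ) : ℂ)).re < 0 := by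
      rw [neg_div]
      exact re_div (by omega) (by positivity)
    rw [hj, Complex.natCast_re] at h2
    exact absurd h2 (not_lt.2 (Nat.cast_nonneg j))
  · intro j hj hcon
    have h5 : (((d + 1) * a * j + d * m : ℕ) : ℂ) = ((Fintype.card V * a : ℕ) : ℂ) := by
      push_cast at hcon ⊢
      field_simp at hcon
      linear_combination -hcon
    have h6 : (d + 1) * a * j + d * m = Fintype.card V * a := by exact_mod_cast h5
    have h9 : 0 < d * m := Nat.mul_pos (by omega) (by omega)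
    have h7 : j * (d + 1) < Fintype.card V := by
      have h8 : (j * (d + 1)) * a < Fintype.card V * a := by
        rw [← h6]
        have h10 : j * (d + 1) * a = (d + 1) * a * j := by ring
        omega
      exact lt_of_mul_lt_mul_right h8 (Nat.zero_le a)
    apply hn j hj h7
    have h11 : -(m : ℂ) / a = -((Fintype.card V : ℂ) - j * (d + 1)) / d := by
      push_cast at h5
      field_simp
      linear_combination -h5
    rwa [← h11]

/-- **The cone.** -/
theorem dec_cone' {R : Type} [CommRing R] (M : Meas ℂ R) (u : Rˣ) (hL : M.L = (u : R))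
    {V : Type} [Fintype V] [DecidableEq V] (G : MvPolynomial V ℂ) (d : ℕ) (hd : 2 ≤ d)
    (hG1 : ∀ j < d, homogeneousComponent j G = 0) (hG0 : homogeneousComponent d G ≠ 0)
    (h1 : ∀ P : V → ℂ, P ≠ 0 → (∀ l, eval P (pderiv l (homogeneousComponent d G)) = 0) →
      eval P (homogeneousComponent (d + 1) G) ≠ 0)
    (h2 : ∀ P : V → ℂ, P ≠ 0 → (∀ l, eval P (pderiv l (homogeneousComponent d G)) = 0) →
      ∀ i, P i ≠ 0 → Dec u (KN (deh P i (homogeneousComponent d G) :
        MvPowerSeries {j : V // j ≠ i} ℂ))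
        (zs M ((u⁻¹ : Rˣ) : R) (deh P i (homogeneousComponent d G))))
    (hn : ∀ P : V → ℂ, P ≠ 0 → (∀ l, eval P (pderiv l (homogeneousComponent d G)) = 0) →
      ∀ i, P i ≠ 0 → ∀ j : ℕ, 1 ≤ j → j * (d + 1) < Fintype.card V →
        ¬ NV (deh P i (homogeneousComponent d G) : MvPowerSeries {j : V // j ≠ i} ℂ)
          (-((Fintype.card V : ℂ) - j * (d + 1)) / d))
    (K' : ℕ → ℕ → Prop) (hK' : ∀ a m, KN (G : MvPowerSeries V ℂ) a m → K' a m)
    (hdn : K' d (Fintype.card V)) : Dec u K' (zs M ((u⁻¹ : Rˣ) : R) G) := by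
  have hne : Nonempty V := by
    by_contra hc
    rw [not_nonempty_iff] at hc
    exact hG0 (hc_empty d (by omega) G)
  have hhom := homogeneousComponent_isHomogeneous d G
  have hS : Sing (G : MvPowerSeries V ℂ) := by
    have h3 := cone_sing hd hhom (rest_ord G d hG1)
    rwa [coe_split] at h3
  obtain ⟨k, P, hP⟩ := fct.g (homogeneousComponent d G) (homogeneousComponent (d + 1) G) d
    (d + 1) (by omega) (by omega) hhom (homogeneousComponent_isHomogeneous (d + 1) G) h1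
  have hex : ∀ r, ∃ j, P r j ≠ 0 := by
    intro r
    by_contra hcon
    push Not at hcon
    exact hP.ne r (funext hcon)
  choose i hi using hex
  obtain ⟨A, hz⟩ := zs_cone M u hL fct.v1 fct.c1 fct.c2 fct.c3 fct.c4 fct.c5 G d hd hG1 P hP i hi
    (fun r => h1 (P r) (hP.ne r) (hP.sing r))
  rw [hz]
  refine Pool.Agent.J4H19.YM.t_M8 u (Fintype.card V) d Fintype.card_pos (by omega) A _
    (fun r => KN (deh (P r) (i r) (homogeneousComponent d G) : MvPowerSeries {j : V // j ≠ i r} ℂ))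
    K' hdn ?_ (fun r => h2 (P r) (hP.ne r) (hP.sing r) (i r) (hi r))
  rintro r a m ha hm ⟨hK, -⟩
  exact hK' _ _ ⟨kn_deh' G d hd hG1 (P r) (i r)
    (hn (P r) (hP.ne r) (hP.sing r) (i r) (hi r)) (hi r) (hP.sing r)
    (h1 (P r) (hP.ne r) (hP.sing r)) a m ha hm hK, hS⟩

/-- **The germs of the class.** -/
theorem good_of_SL {R : Type} [CommRing R] (M : Meas ℂ R) (u : Rˣ)
    (hL : M.L = (u : R)) {V : Type} {G : MvPolynomial V ℂ} (h : SL V G) :
    ∀ inst : Fintype V, @GoodJ R _ M u V inst G := by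
  induction h with
  | @curve V I hV G h0 m hG =>
    intro inst
    obtain rfl := Subsingleton.elim I inst
    exact good_of_SJ fk M u hL (SJ.curve hV G h0 m hG) I
  | @swh V I _ G w D hw hD hG h1 hz =>
    intro inst
    obtain rfl := Subsingleton.elim I inst
    exact good_swh fk M u hL G w D hw hD hG h1 hz
  | @coord V I _ f f' hf φ e hφ he h ih =>
    intro inst
    obtain rfl := Subsingleton.elim I inst
    exact good_coord fk M u hL f f' (ih I) φ e hφ he h
  | @cone V I _ G d hd hG1 hG0 h1 h2 hn hAA ih =>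
    intro inst
    obtain rfl := Subsingleton.elim I inst
    obtain ⟨e1, e2⟩ := cone_basic G d hd hG1 hG0
    exact ⟨e1, e2, dec_cone' M u hL G d hd hG1 hG0 h1
      (fun P hP hPs i hi => (ih P hP hPs i hi inferInstance).dec) hn _ (fun a m h => h)
      (kn_top G d hd hG1 hG0 h1 hAA)⟩

/-- **The local motivic zeta function of a superisolated singularity.** -/
theorem main_sq {n : ℕ} (d : ℕ) (f : MvPolynomial (Fin n) ℂ) (hf : SQ (Fin n) d f) :
    (∃ S : Finset (ℤ × ℤ), (∀ q ∈ S, q.1 < 0 ∧ 0 < q.2 ∧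
      ((q.1 : ℂ) / q.2 = -(n : ℂ) / d ∨
        ∀ b : Polynomial ℂ, IsLocalBFunction f b → b.eval ((q.1 : ℂ) / q.2) = 0)) ∧
      zetaO f ∈ ratRing ℂ (S : Set (ℤ × ℤ))) ∧
    (Star (Fin n) d f → ∀ b : Polynomial ℂ, IsLocalBFunction f b →
      b.eval (-(n : ℂ) / d) = 0) := by
  obtain ⟨hd, hG1, hG0, h12⟩ := hf
  have hdc : (d : ℂ) ≠ 0 := Nat.cast_ne_zero.2 (by omega)
  have h1 : ∀ P : Fin n → ℂ, P ≠ 0 →
      (∀ l, eval P (pderiv l (homogeneousComponent d f)) = 0) →
      eval P (homogeneousComponent (d + 1) f) ≠ 0 := fun P hP h => (h12 P hP h).1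
  obtain ⟨hf0, hfc⟩ := cone_basic f d hd hG1 hG0
  obtain ⟨M, hL, hχ⟩ := exists_meas ℂ
  obtain ⟨b₀, hb₀, hdvd⟩ := exists_gen (f : MvPowerSeries (Fin n) ℂ)
  have hm1 := formal_root hf0 hfc hb₀
  have hK : ∀ a n', KN (f : MvPowerSeries (Fin n) ℂ) a n' → Kb b₀ a n' := by
    intro a n' h
    by_contra hne
    exact Pool.Agent.J4H45.YO.t_NFE _ _ h.2 h.1 (FEv_of_formal hf0 hb₀ hne)
  constructor
  · set b₁ : Polynomial ℂ := b₀ * (Polynomial.X + Polynomial.C ((n : ℂ) / d)) with hb₁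
    have hK1 : ∀ a n', Kb b₀ a n' → Kb b₁ a n' := by
      intro a n' h
      rw [Kb, hb₁, Polynomial.eval_mul]
      rw [Kb] at h
      rw [h, zero_mul]
    have hdn : Kb b₁ d (Fintype.card (Fin n)) := by
      rw [Kb, hb₁, Polynomial.eval_mul, Fintype.card_fin, Polynomial.eval_add,
        Polynomial.eval_X, Polynomial.eval_C, neg_div, neg_add_cancel, mul_zero]
    obtain ⟨ρ, r, e1, e2, e3, e4⟩ := dec_cone' M (Lu ℂ) hL f d hd hG1 hG0 h1
      (fun P hP hPs i hi =>
        (good_of_SL M (Lu ℂ) hL ((h12 P hP hPs).2 i hi).1 inferInstance).dec)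
      (fun P hP hPs i hi => ((h12 P hP hPs).2 i hi).2)
      (Kb b₁) (fun a m h => hK1 a m (hK a m h)) hdn
    have hg : geo (Lu ℂ) 1 1 ∈ DenRing (Lu ℂ) (Kb b₁) := by
      refine geo11_mem (Lu ℂ) b₁ ?_
      rw [hb₁, Polynomial.eval_mul, hm1, zero_mul]
    have h5 : ρ = (1 - qq (Lu ℂ) 1 1) * ρ * geo (Lu ℂ) 1 1 := by
      linear_combination (-ρ) * geo_mul (Lu ℂ) le_rfl 1
    have hρ : ρ ∈ DenRing (Lu ℂ) (Kb b₁) := by
      rw [h5]
      exact Subring.mul_mem _ e3 hg
    have h2 : zs M (((Lu ℂ)⁻¹ : (MK ℂ)ˣ) : MK ℂ) f ∈ DenRing (Lu ℂ) (Kb b₁) := by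
      rw [e1]
      exact Subring.add_mem _ (Subring.mul_mem _ (Pool.Agent.W574.MO.C_mem _) hρ) e2
    obtain ⟨S, hS, hSz⟩ := fct.z b₁ _ h2
    refine ⟨S, fun q hq => ⟨(hS q hq).1, (hS q hq).2.1, ?_⟩, ?_⟩
    · have h3 := (hS q hq).2.2
      rw [hb₁, Polynomial.eval_mul, Polynomial.eval_add, Polynomial.eval_X,
        Polynomial.eval_C] at h3
      rcases mul_eq_zero.1 h3 with h4 | h4
      · right
        intro b hb
        obtain ⟨c, rfl⟩ := hdvd b (formal_of_local hb)
        rw [Polynomial.eval_mul, h4, zero_mul]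
      · left
        rw [neg_div]
        exact eq_neg_of_add_eq_zero_left h4
    · rw [zetaO_eq fct.v0 M hL (fun ι _ S => hχ ι S) f]
      refine Subalgebra.mul_mem _ ?_ hSz
      exact Subalgebra.algebraMap_mem (ratRing ℂ (S : Set (ℤ × ℤ))) _
  · intro hA b hb
    obtain ⟨c, rfl⟩ := hdvd b (formal_of_local hb)
    rw [Polynomial.eval_mul]
    have h3 : b₀.eval (-(n : ℂ) / d) = 0 := by
      rcases hA with hA | hA
      · rw [Fintype.card_fin] at hA
        rw [hA, neg_div, div_self hdc]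
        exact hm1
      · have h4 := hK _ _ (kn_top f d hd hG1 hG0 h1 hA)
        rw [Kb, Fintype.card_fin] at h4
        exact h4
    rw [h3, zero_mul]

end Pool.Agent.J4H50.YL
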