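import Pool.Agent.J4H50.YP.Stm

set_option autoImplicit false

/-! # Project YL: the class of the germs -/

namespace Pool.Agent.J4H50.YL

open MvPolynomial
open Pool.Agent.J4H50.YP (deh)
open Pool.Agent.J4H50.YO (NV NonExact)
open Pool.Agent.J4H50.IG (IsoC)
open Pool.Agent.J4H50.TF (IsCo)

/-- `SL V G`: the germ of the polynomial `G` at the origin is

* `curve`: a plane curve with an isolated critical point, or smooth;
* `swh`: semi-weighted-homogeneous: for some weights `w i`, `0 < w i ≤ D`, all terms have at least the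
  weight `D`, and the component `G₀` of weight `D` has an isolated critical point;
* `coord`: in formal coordinates, and up to a unit, the germ of another polynomial of the class;
* `cone`: superisolated: `G = G_d + G_{d+1} + ⋯`, and for all singular points `P` of the tangent cone
  `G_d = 0` in the projective space `G_{d+1}(P) ≠ 0`, and the germ `g` of the tangent cone at `P` (`deh`) is
  in the class. Moreover the form `G_d ^ (- n / d) dx`, `n` the number of variables, is not exact on the
  complement of the cone, or there is a de Rham functional (`NV`) at `- n / d` for the germ of the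
  tangent cone at some `P`. Condition (for `n > d + 1` only): for `j ≥ 1` with `j (d + 1) < n` there is
  no such functional for `g` at `- (n - j (d + 1)) / d`. -/
inductive SL : (V : Type) → MvPolynomial V ℂ → Prop
  | curve {V : Type} [Fintype V] (hV : Fintype.card V = 2) (G : MvPolynomial V ℂ)
      (h0 : constantCoeff G = 0) (M : ℕ) (hG : IsoC G M) : SL V G
  | swh {V : Type} [Fintype V] [Nonempty V] (G : MvPolynomial V ℂ) (w : V → ℕ) (D : ℕ)
      (hw : ∀ i, 0 < w i ∧ w i ≤ D) (hD : 0 < D)
      (hG : ∀ a, coeff a G ≠ 0 → D ≤ Finsupp.weight w a)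
      (h1 : ∀ i, coeff (Finsupp.single i 1) G = 0)
      (hz : ∀ z : V → ℂ,
        (∀ i, eval z (pderiv i (weightedHomogeneousComponent w D G)) = 0) → z = 0) : SL V G
  | coord {V : Type} [Fintype V] [DecidableEq V] (f f' : MvPolynomial V ℂ) (hf : SL V f)
      (φ : V → MvPowerSeries V ℂ) (u : MvPowerSeries V ℂ) (hφ : IsCo φ) (hu : IsUnit u)
      (h : MvPowerSeries.subst φ (f' : MvPowerSeries V ℂ) = u * (f : MvPowerSeries V ℂ)) : SL V f'
  | cone {V : Type} [Fintype V] [DecidableEq V] (G : MvPolynomial V ℂ) (d : ℕ) (hd : 2 ≤ d)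
      (hG : ∀ j < d, homogeneousComponent j G = 0) (hG0 : homogeneousComponent d G ≠ 0)
      (h1 : ∀ P : V → ℂ, P ≠ 0 →
        (∀ l, eval P (pderiv l (homogeneousComponent d G)) = 0) →
        eval P (homogeneousComponent (d + 1) G) ≠ 0)
      (h2 : ∀ P : V → ℂ, P ≠ 0 →
        (∀ l, eval P (pderiv l (homogeneousComponent d G)) = 0) → ∀ i, P i ≠ 0 →
        SL {j : V // j ≠ i} (deh P i (homogeneousComponent d G)))
      (hn : ∀ P : V → ℂ, P ≠ 0 →
        (∀ l, eval P (pderiv l (homogeneousComponent d G)) = 0) → ∀ i, P i ≠ 0 →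
        ∀ j : ℕ, 1 ≤ j → j * (d + 1) < Fintype.card V →
          ¬ NV (deh P i (homogeneousComponent d G) : MvPowerSeries {j : V // j ≠ i} ℂ)
            (-((Fintype.card V : ℂ) - j * (d + 1)) / d))
      (hA : NonExact (homogeneousComponent d G) (-((Fintype.card V : ℕ) : ℂ) / d) ∨
        ∃ (P : V → ℂ) (i : V), P i ≠ 0 ∧
          (∀ l, eval P (pderiv l (homogeneousComponent d G)) = 0) ∧
          NV (deh P i (homogeneousComponent d G) : MvPowerSeries {j : V // j ≠ i} ℂ)
            (-((Fintype.card V : ℕ) : ℂ) / d)) : SL V G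

/-- `SQ V d G`: the germ of `G` at the origin is superisolated of multiplicity `d`: `G = G_d + G_{d+1} + ⋯`,
`G_d ≠ 0`, and for all singular points `P` of the tangent cone `G_d = 0` in the projective space
`G_{d+1}(P) ≠ 0`, and the germ `g` of the tangent cone at `P` is in the class `SL`; condition (for
`n > d + 1` only, `n` the number of variables): for `j ≥ 1` with `j (d + 1) < n` there is no de Rham
functional (`NV`) for `g` at `- (n - j (d + 1)) / d`. -/
def SQ (V : Type) [Fintype V] [DecidableEq V] (d : ℕ) (G : MvPolynomial V ℂ) : Prop :=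
  2 ≤ d ∧ (∀ j < d, homogeneousComponent j G = 0) ∧ homogeneousComponent d G ≠ 0 ∧
    ∀ P : V → ℂ, P ≠ 0 → (∀ l, eval P (pderiv l (homogeneousComponent d G)) = 0) →
      eval P (homogeneousComponent (d + 1) G) ≠ 0 ∧
        ∀ i, P i ≠ 0 → SL {j : V // j ≠ i} (deh P i (homogeneousComponent d G)) ∧
          ∀ j : ℕ, 1 ≤ j → j * (d + 1) < Fintype.card V →
            ¬ NV (deh P i (homogeneousComponent d G) : MvPowerSeries {j : V // j ≠ i} ℂ)
              (-((Fintype.card V : ℂ) - j * (d + 1)) / d)

/-- The condition for the number `- n / d`: `d = n`, or the form `G_d ^ (- n / d) dx` is not exact on the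
complement of the cone, or there is a de Rham functional (`NV`) at `- n / d` for the germ of the tangent
cone at some singular point `P`. -/
def Star (V : Type) [Fintype V] [DecidableEq V] (d : ℕ) (G : MvPolynomial V ℂ) : Prop :=
  Fintype.card V = d ∨
    NonExact (homogeneousComponent d G) (-((Fintype.card V : ℕ) : ℂ) / d) ∨
    ∃ (P : V → ℂ) (i : V), P i ≠ 0 ∧
      (∀ l, eval P (pderiv l (homogeneousComponent d G)) = 0) ∧
      NV (deh P i (homogeneousComponent d G) : MvPowerSeries {j : V // j ≠ i} ℂ)
        (-((Fintype.card V : ℕ) : ℂ) / d)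

end Pool.Agent.J4H50.YL
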